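import Pool.Agent.Helper1.TE.Goals4

/-!
PROJECT TE (MP_8b4d68_lc), packet LOC.
-/

set_option autoImplicit false

namespace Pool.Agent.Helper22.TE

open Pool.Agent.Helper1.TE

theorem loc1 {Z : Type} (g : Gad Z) (tst : ℕ → ℕ) (leaf leaf' : ℕ → ℕ) (f f' : ℕ → ℕ → ℕ → ℕ)
    (h : ℕ) : ∀ (j T : ℕ) (i : Fin 3) (τ a b : ℕ) (C : Fin 3 → Z),
    (isG h τ → f (gN h j τ).1 a b = f' (gN h j τ).1 a b) →
    (¬ isG h τ → leaf (lN h j τ) = leaf' (lN h j τ)) →
    opR g tst leaf f h j T i τ a b C = opR g tst leaf' f' h j T i τ a b C := by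
  induction h with
  | zero =>
    intro j T i τ a b C _ h2
    have h3 : leaf j = leaf' j := h2 (fun h => h)
    unfold opR
    rw [h3]
  | succ h ih =>
    intro j T i τ a b C h1 h2
    unfold opR
    unfold gN at h1
    unfold lN at h2
    by_cases d0 : τ / 5 ^ h = 0
    · rw [if_pos d0, if_pos d0]
      rw [if_pos d0] at h1 h2
      refine ih _ _ _ _ _ _ _ (fun hg => h1 (Or.inr ⟨by omega, hg⟩)) (fun hg => h2 ?_)
      rintro (h3 | h3)
      · omega
      · exact hg h3.2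
    by_cases d1 : τ / 5 ^ h = 1
    · rw [if_neg d0, if_neg d0, if_pos d1, if_pos d1]
      rw [if_neg d0, if_pos d1] at h1 h2
      refine ih _ _ _ _ _ _ _ (fun hg => h1 (Or.inr ⟨by omega, hg⟩)) (fun hg => h2 ?_)
      rintro (h3 | h3)
      · omega
      · exact hg h3.2
    by_cases d2 : τ / 5 ^ h = 2
    · rw [if_neg d0, if_neg d0, if_neg d1, if_neg d1, if_pos d2, if_pos d2]
      rw [if_neg d0, if_neg d1, if_pos d2] at h1 h2
      by_cases e : τ % 5 ^ h = 0
      · rw [if_pos e, if_pos e]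
        have h3 : f j a b = f' j a b := h1 (Or.inl ⟨d2, e⟩)
        unfold guess
        rw [h3]
      · rw [if_neg e, if_neg e]
    by_cases d3 : τ / 5 ^ h = 3
    · rw [if_neg d0, if_neg d0, if_neg d1, if_neg d1, if_neg d2, if_neg d2, if_pos d3, if_pos d3]
      rw [if_neg d0, if_neg d1, if_neg d2, if_pos d3] at h1 h2
      refine ih _ _ _ _ _ _ _ (fun hg => h1 (Or.inr ⟨by omega, hg⟩)) (fun hg => h2 ?_)
      rintro (h3 | h3)
      · omega
      · exact hg h3.2
    · rw [if_neg d0, if_neg d0, if_neg d1, if_neg d1, if_neg d2, if_neg d2, if_neg d3, if_neg d3]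
      rw [if_neg d0, if_neg d1, if_neg d2, if_neg d3] at h1 h2
      refine ih _ _ _ _ _ _ _ (fun hg => h1 (Or.inr ⟨by omega, hg⟩)) (fun hg => h2 ?_)
      rintro (h3 | h3)
      · omega
      · exact hg h3.2

theorem loc2 {Z : Type} (g : Gad Z) (tst : ℕ → ℕ) (leaf : ℕ → ℕ) (f : ℕ → ℕ → ℕ → ℕ)
    (h : ℕ) : ∀ (j T : ℕ) (i : Fin 3) (τ a b a' b' : ℕ) (C : Fin 3 → Z), ¬ isG h τ →
    opR g tst leaf f h j T i τ a b C = opR g tst leaf f h j T i τ a' b' C := by
  induction h with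
  | zero =>
    intro j T i τ a b a' b' C _
    rfl
  | succ h ih =>
    intro j T i τ a b a' b' C hg
    have hg' : τ / 5 ^ h ≠ 2 → ¬ isG h (τ % 5 ^ h) := fun h1 h2 => hg (Or.inr ⟨h1, h2⟩)
    unfold opR
    by_cases d0 : τ / 5 ^ h = 0
    · rw [if_pos d0, if_pos d0]
      exact ih _ _ _ _ _ _ _ _ _ (hg' (by omega))
    by_cases d1 : τ / 5 ^ h = 1
    · rw [if_neg d0, if_neg d0, if_pos d1, if_pos d1]
      exact ih _ _ _ _ _ _ _ _ _ (hg' (by omega))
    by_cases d2 : τ / 5 ^ h = 2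
    · rw [if_neg d0, if_neg d0, if_neg d1, if_neg d1, if_pos d2, if_pos d2]
      have e : ¬ τ % 5 ^ h = 0 := fun e => hg (Or.inl ⟨d2, e⟩)
      rw [if_neg e, if_neg e]
    by_cases d3 : τ / 5 ^ h = 3
    · rw [if_neg d0, if_neg d0, if_neg d1, if_neg d1, if_neg d2, if_neg d2, if_pos d3, if_pos d3]
      exact ih _ _ _ _ _ _ _ _ _ (hg' (by omega))
    · rw [if_neg d0, if_neg d0, if_neg d1, if_neg d1, if_neg d2, if_neg d2, if_neg d3, if_neg d3]
      exact ih _ _ _ _ _ _ _ _ _ (hg' (by omega))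

theorem loc3 (h : ℕ) : ∀ l j τ : ℕ, τ < 5 ^ h → 2 ^ l ≤ j → j < 2 ^ (l + 1) →
    (2 ^ (l + h) ≤ lN h j τ ∧ lN h j τ < 2 ^ (l + h + 1)) ∧
    (isG h τ → 1 ≤ (gN h j τ).1 ∧ (gN h j τ).1 < 2 ^ (l + h) ∧
      (gN h j τ).2 = l + h - Nat.log 2 (gN h j τ).1 - 1) := by
  induction h with
  | zero =>
    intro l j τ _ h1 h2
    exact ⟨⟨h1, h2⟩, fun h3 => absurd h3 (fun h => h)⟩
  | succ h ih =>
    intro l j τ hτ h1 h2
    have hm : τ % 5 ^ h < 5 ^ h := Nat.mod_lt _ (by positivity)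
    have e1 : 2 ^ (l + 1) = 2 * 2 ^ l := by rw [pow_succ, mul_comm]
    have e2 : 2 ^ (l + 1 + 1) = 2 * 2 ^ (l + 1) := by rw [pow_succ, mul_comm]
    have i1 := ih (l + 1) (2 * j) (τ % 5 ^ h) hm (by omega) (by omega)
    have i2 := ih (l + 1) (2 * j + 1) (τ % 5 ^ h) hm (by omega) (by omega)
    have e3 : l + (h + 1) = l + 1 + h := by omega
    rw [e3]
    unfold lN gN
    by_cases d0 : τ / 5 ^ h = 0
    · rw [if_pos d0, if_pos d0]
      refine ⟨i1.1, fun hg => i1.2 ?_⟩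
      rcases hg with hg | hg
      · omega
      · exact hg.2
    by_cases d1 : τ / 5 ^ h = 1
    · rw [if_neg d0, if_neg d0, if_pos d1, if_pos d1]
      refine ⟨i2.1, fun hg => i2.2 ?_⟩
      rcases hg with hg | hg
      · omega
      · exact hg.2
    by_cases d2 : τ / 5 ^ h = 2
    · rw [if_neg d0, if_neg d0, if_neg d1, if_neg d1, if_pos d2, if_pos d2]
      have p1 : 2 ^ (l + 1 + h) = 2 ^ (h + 1) * 2 ^ l := by rw [← pow_add]; congr 1; omega
      have p2 : 2 ^ (l + 1 + h + 1) = 2 ^ (h + 1) * 2 ^ (l + 1) := by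
        rw [← pow_add]; congr 1; omega
      have hlog : Nat.log 2 j = l := by
        have hj : j ≠ 0 := by
          have : 0 < 2 ^ l := by positivity
          omega
        rw [Nat.log_eq_iff (Or.inr ⟨by norm_num, hj⟩)]
        exact ⟨h1, h2⟩
      refine ⟨⟨?_, ?_⟩, fun _ => ⟨?_, ?_, ?_⟩⟩
      · rw [p1]
        exact Nat.mul_le_mul_left _ h1
      · rw [p2]
        exact Nat.mul_lt_mul_of_pos_left h2 (by positivity)
      · have : 0 < 2 ^ l := by positivity
        change 1 ≤ j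
        omega
      · change j < _
        refine lt_of_lt_of_le h2 (Nat.pow_le_pow_right (by norm_num) (by omega))
      · change h = _ - Nat.log 2 j - 1
        rw [hlog]
        omega
    by_cases d3 : τ / 5 ^ h = 3
    · rw [if_neg d0, if_neg d0, if_neg d1, if_neg d1, if_neg d2, if_neg d2, if_pos d3, if_pos d3]
      refine ⟨i1.1, fun hg => i1.2 ?_⟩
      rcases hg with hg | hg
      · omega
      · exact hg.2
    · rw [if_neg d0, if_neg d0, if_neg d1, if_neg d1, if_neg d2, if_neg d2, if_neg d3, if_neg d3]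
      refine ⟨i2.1, fun hg => i2.2 ?_⟩
      rcases hg with hg | hg
      · omega
      · exact hg.2

theorem gLOC : GoalLOC :=
  ⟨fun g tst leaf leaf' f f' h j T i τ a b C h1 h2 =>
      loc1 g tst leaf leaf' f f' h j T i τ a b C h1 h2,
    fun g tst leaf f h j T i τ a b a' b' C hg => loc2 g tst leaf f h j T i τ a b a' b' C hg,
    fun h l j τ h1 h2 h3 => loc3 h l j τ h1 h2 h3⟩

end Pool.Agent.Helper22.TE
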