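import Pool.Agent.Helper1.TE.Goals3

/-!
PROJECT TE (MP_8b4d68_lc), packet LPA.
-/

set_option autoImplicit false

namespace Pool.Agent.Helper22.TE

open Pool.Agent.Helper1.TE
open Pool.Agent.Helper65.LinSpace (LS)

theorem gLPA : GoalLPA := by
  have hs : LS (fun x : ℕ × ℕ => sP x.1 x.2) := by
    unfold sP
    fun_prop
  have hs' : ∀ {α : Type} [Pool.Agent.Helper65.LinSpace.Ctx α] (f g : α → ℕ), LS f → LS g →
      LS (fun a => sP (f a) (g a)) := by
    intro α _ f g hf hg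
    have h := hs
    exact LS.comp h (LS.prodMk hf hg)
  have hm : LS (fun x : ℕ × ℕ => mP x.1 x.2) := by
    unfold mP
    have h1 := hs' (fun x : ℕ × ℕ => x.1) (fun x => x.2) (by fun_prop) (by fun_prop)
    fun_prop
  have hR : LS (fun x : ℕ × ℕ => RP x.1 x.2) := by
    unfold RP
    have h1 := hs' (fun x : ℕ × ℕ => x.1) (fun x => x.2) (by fun_prop) (by fun_prop)
    fun_prop
  refine ⟨hs, hm, hR, ?_, ?_⟩
  · unfold EP
    have h1 := hs' (fun x : ℕ × ℕ => x.1) (fun x => x.2) (by fun_prop) (by fun_prop)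
    fun_prop
  · unfold LP
    have h1 := hs' (fun x : ℕ × ℕ × ℕ => x.1) (fun x => x.2.1) (by fun_prop) (by fun_prop)
    have h2 : LS (fun x : ℕ × ℕ × ℕ => mP x.1 x.2.1) :=
      LS.comp hm (LS.prodMk (f := fun x : ℕ × ℕ × ℕ => x.1) (g := fun x => x.2.1)
        (by fun_prop) (by fun_prop))
    fun_prop

end Pool.Agent.Helper22.TE
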